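import Pool.Agent.Lib.MP_1a91b9_ntV.F.FinV
import Pool.Agent.Lib.MP_1a91b9_ntV.R.Den7b
import Pool.Agent.Lib.MP_1a91b9_ntI.Defs

/-!
# The conjecture of Birch and Swinnerton-Dyer modulo `2` for all elliptic curves over `ℚ(√-7)` with
complex multiplication by the ring of integers: the final form
-/

set_option autoImplicit false
set_option linter.unusedSectionVars false

namespace Pool.Agent.Lib.MP_1a91b9_ntV

open NumberField Pool.Agent.Lib.MP_1a91b9_nuT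
open Pool.Agent.Lib.MP_1a91b9_ntS (BSDMod)
open Pool.Agent.Lib.MP_1a91b9_ntV.L (dE WE)
open Pool.Agent.Lib.MP_1a91b9_ntV.DS (cinfV)

noncomputable section

/-- The density as an infinite product. -/
theorem cinfV_form : ∏' i : ℕ, (1 - 1 / (2 : ℝ) ^ (i + 1)) = cinfV := by
  unfold cinfV
  congr 1
  funext i
  rw [one_div_pow]

theorem good7_cr {S : Finset Pg7} {d0 d1 d2 : ZMod 2} :
    Good7 D7 S d0 d1 d2 ↔ Cr.Good D7 S d0 d1 d2 := Iff.rfl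

theorem dE_unit (d0 : ZMod 2) : dE d0 0 0 (∅ : Finset Pg7) = 1 ∨ dE d0 0 0 (∅ : Finset Pg7) = -1 := by
  unfold dE
  have h0 : (0 : ZMod 2).val = 0 := rfl
  rw [h0, pow_zero, pow_zero, mul_one, mul_one]
  have h1 : DD (∅ : Finset Pg7) = 1 := Finset.prod_empty
  rw [h1, mul_one]
  rcases Pool.Agent.Lib.MP_1a91b9_ntR.z2v d0 with ⟨-, h⟩ | ⟨-, h⟩
  · left
    rw [h, pow_zero]
  · right
    rw [h, pow_one]

/-- **The main result over `K7`**, in terms of the curves `WE d`. -/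
theorem main_WE : ∃ q : 𝓞 K7 → ℚ,
    (∀ d : 𝓞 K7, Squarefree d → BSDMod 2 (WE d) (q d)) ∧
    ∀ (n : ℕ) (m u : 𝓞 K7), m ∣ 2 ^ n → (∀ p : 𝓞 K7, Prime p → ¬ (p ^ 2 ∣ m ∧ p ^ 2 ∣ u)) →
      Filter.Tendsto (fun X : ℝ =>
        (Nat.card {d : 𝓞 K7 // Squarefree d ∧ m ∣ d - u ∧
          |Algebra.norm ℤ d| ≤ X ∧ ¬ 2 ∣ (q d).num} : ℝ) /
        (Nat.card {d : 𝓞 K7 // Squarefree d ∧ m ∣ d - u ∧
          |Algebra.norm ℤ d| ≤ X} : ℝ)) Filter.atTop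
        (nhds (∏' i : ℕ, (1 - 1 / (2 : ℝ) ^ (i + 1)))) := by
  obtain ⟨q, h1, h2⟩ := F.bsdV7
  refine ⟨q, h1, fun n m u hm hu => ?_⟩
  rw [cinfV_form]
  refine den7' hm hu (fun d => ¬ (2 : ℤ) ∣ (q d).num) fun x hx hx1 hx2 => ?_
  obtain ⟨d0, d1, d2, S, rfl⟩ := F.exists_dE hx
  have hne : ¬ (S = ∅ ∧ d1 = 0 ∧ d2 = 0) := by
    rintro ⟨rfl, rfl, rfl⟩
    rcases dE_unit d0 with h | h
    · exact hx1 h
    · exact hx2 h
  refine (h2 d0 d1 d2 S hne).trans ?_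
  constructor
  · intro h
    exact ⟨d0, d1, d2, S, rfl, h⟩
  · rintro ⟨e0, e1, e2, T, h3, h4⟩
    obtain ⟨rfl, rfl, rfl, rfl⟩ := F.dE_inj h3
    exact h4

theorem WE_K7 (d : 𝓞 K7) : WE d = (⟨0, (d : K7) * (1 + (1 - (t7 : K7)) ^ 4), 0,
    (d : K7) ^ 2 * (1 - (t7 : K7)) ^ 4, 0⟩ : WeierstrassCurve K7) := by
  have e : (((tb : 𝓞 K7) : 𝓞 K7) : K7) = 1 - (t7 : K7) := by
    change algebraMap (𝓞 K7) K7 (1 - t7) = _
    rw [map_sub, map_one]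
  unfold WE
  change (⟨0, (d : K7) * (1 + ((tb : 𝓞 K7) : K7) ^ 4), 0, (d : K7) ^ 2 * ((tb : 𝓞 K7) : K7) ^ 4,
    0⟩ : WeierstrassCurve K7) = _
  rw [e]

/-- **The main result over `K7`**: the curves `y² = x (x + d) (x + d (1 - t)⁴)`, `t² = t - 2`. -/
theorem main_V : ∃ q : 𝓞 K7 → ℚ,
    (∀ d : 𝓞 K7, Squarefree d → ∀ W : WeierstrassCurve K7,
      W = ⟨0, (d : K7) * (1 + (1 - (t7 : K7)) ^ 4), 0, (d : K7) ^ 2 * (1 - (t7 : K7)) ^ 4, 0⟩ →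
        BSDMod 2 W (q d)) ∧
    ∀ (n : ℕ) (m u : 𝓞 K7), m ∣ 2 ^ n → (∀ p : 𝓞 K7, Prime p → ¬ (p ^ 2 ∣ m ∧ p ^ 2 ∣ u)) →
      Filter.Tendsto (fun X : ℝ =>
        (Nat.card {d : 𝓞 K7 // Squarefree d ∧ m ∣ d - u ∧
          |Algebra.norm ℤ d| ≤ X ∧ ¬ 2 ∣ (q d).num} : ℝ) /
        (Nat.card {d : 𝓞 K7 // Squarefree d ∧ m ∣ d - u ∧
          |Algebra.norm ℤ d| ≤ X} : ℝ)) Filter.atTop
        (nhds (∏' i : ℕ, (1 - 1 / (2 : ℝ) ^ (i + 1)))) := by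
  obtain ⟨q, h1, h2⟩ := main_WE
  refine ⟨q, fun d hd W hW => ?_, h2⟩
  rw [hW, ← WE_K7]
  exact h1 d hd

/-! ### The form for a variable field -/

theorem fr_two {x : 𝓞 K7} : Pool.Agent.Lib.MP_1a91b9_ntI.Fr K7 2 x ↔ Squarefree x := by
  unfold Pool.Agent.Lib.MP_1a91b9_ntI.Fr
  constructor
  · intro h
    by_cases hx : x = 0
    · subst hx
      exact absurd (dvd_zero (t7 ^ 2)) (h t7 ta_prime)
    · refine (squarefree_iff_irreducible_sq_not_dvd_of_ne_zero hx).2 fun p hp hd => ?_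
      exact h p hp.prime (by rwa [sq])
  · intro h p hp hd
    rw [sq] at hd
    exact hp.not_isUnit (h p hd)

/-- The main statement over `K7`. -/
theorem tp7 : Pool.Agent.Lib.MP_1a91b9_ntI.TP K7 2 (1 + (1 - t7) ^ 4) ((1 - t7) ^ 4)
    (∏' i : ℕ, (1 - 1 / (2 : ℝ) ^ (i + 1))) := by
  obtain ⟨q, h1, h2⟩ := main_WE
  refine ⟨q, fun D hD => ?_, fun n m u hm hu => ?_⟩
  · have e : Pool.Agent.Lib.MP_1a91b9_ntI.cW K7 2 (1 + (1 - t7) ^ 4) ((1 - t7) ^ 4) D = WE D := by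
      rw [WE_K7]
      unfold Pool.Agent.Lib.MP_1a91b9_ntI.cW
      have e1 : (((1 + (1 - t7) ^ 4) * D : 𝓞 K7) : K7) =
          (D : K7) * (1 + (1 - (t7 : K7)) ^ 4) := by
        push_cast
        ring
      have e2 : (((1 - t7) ^ 4 * D ^ (4 / 2) : 𝓞 K7) : K7) =
          (D : K7) ^ 2 * (1 - (t7 : K7)) ^ 4 := by
        have h4 : 4 / 2 = 2 := rfl
        rw [h4]
        push_cast
        ring
      rw [e1, e2]
    rw [e]
    exact h1 D (fr_two.1 hD)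
  · have h3 := h2 n m u hm hu
    simp only [fr_two]
    exact h3

end

end Pool.Agent.Lib.MP_1a91b9_ntV
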